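import Pool.Agent.H90.SRC.Targets

/-!
# MP_81fcf0_co, the recursion on segments: the price of the intervals which meet a segment
-/

set_option autoImplicit false

open Finset
open Pool.Agent.H66.SLP Pool.Agent.H90.SRC

namespace Pool.Agent.H49.SRC

theorem wt_filter (w : ℕ → ℝ) (a b s e : ℕ) :
    wt w (max s a) (min e b) = ∑ x ∈ Ico a b, if s ≤ x ∧ x < e then w x else 0 := by
  unfold wt
  rw [← Finset.sum_filter]
  refine Finset.sum_congr ?_ fun _ _ => rfl
  ext x
  simp only [Finset.mem_Ico, Finset.mem_filter, max_le_iff, lt_min_iff]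
  tauto

theorem card_le_cov {ι : Type} [Fintype ι] (s e : ι → ℕ) (x : ℕ) (P : ι → Prop)
    [DecidablePred P] (h : ∀ i, P i → s i ≤ x ∧ x < e i) :
    ∑ i, (if P i then (2 : ℝ) else 0) ≤ 2 * (cov s e univ x : ℝ) := by
  rw [← Finset.sum_filter, Finset.sum_const, nsmul_eq_mul, mul_comm]
  refine mul_le_mul_of_nonneg_left ?_ (by norm_num)
  unfold cov
  exact_mod_cast Finset.card_le_card fun i hi => by
    rw [Finset.mem_filter] at hi ⊢
    exact ⟨hi.1, h i hi.2⟩

theorem pf_RW2 : T_RW2 := by
  intro Y u p α β a b Q ι _ _ z s e w hp hF hw hcov hpw haα hab hbβ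
  have hsum : ∑ i, wt w (max (s i) a) (min (e i) b) = Q * wt w a b := by
    simp only [wt_filter]
    rw [Finset.sum_comm]
    have h1 : ∀ x ∈ Ico a b, ∑ i, (if s i ≤ x ∧ x < e i then w x else 0) = Q * w x := by
      intro x hx
      rw [Finset.mem_Ico] at hx
      rw [← Finset.sum_filter, Finset.sum_const, nsmul_eq_mul]
      have h2 := hcov x (by omega) (by omega)
      unfold cov at h2
      rw [h2]
    rw [Finset.sum_congr rfl h1]
    unfold wt
    rw [Finset.mul_sum]
  have hA : ∑ i, (if s i < a ∧ a < e i then (2 : ℝ) else 0) ≤ 2 * (Q : ℝ) := by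
    have h1 := card_le_cov s e a (fun i => s i < a ∧ a < e i) fun i hi => ⟨hi.1.le, hi.2⟩
    rw [hcov a haα (by omega)] at h1
    exact h1
  have hB : ∑ i, (if s i < b ∧ b < e i then (2 : ℝ) else 0) ≤ 2 * (Q : ℝ) := by
    have h1 := card_le_cov s e (b - 1) (fun i => s i < b ∧ b < e i) fun i hi =>
      ⟨by omega, by omega⟩
    rw [hcov (b - 1) (by omega) (by omega)] at h1
    exact h1
  have key : ∀ i, (if s i < b ∧ a < e i then p (z i) else 0) ≤
      wt w (max (s i) a) (min (e i) b) - (wt w (s i) (e i) - p (z i)) *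
        (wt w (max (s i) a) (min (e i) b) / wt w (s i) (e i)) +
        (if s i < a ∧ a < e i then (2 : ℝ) else 0) +
        (if s i < b ∧ b < e i then (2 : ℝ) else 0) := by
    intro i
    have hlt := hF.lt i
    have hp1 := (hp (z i)).1
    have hp2 := (hp (z i)).2
    have hW := hpw i
    set W := wt w (s i) (e i) with hWdef
    set m := wt w (max (s i) a) (min (e i) b) with hm
    have hm0 : 0 ≤ m := Finset.sum_nonneg fun x _ => hw x
    have hW0 : 0 < W := by linarith
    have e1 : m - (W - p (z i)) * (m / W) = p (z i) * (m / W) := by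
      field_simp
      ring
    have e2 : 0 ≤ p (z i) * (m / W) :=
      mul_nonneg (by linarith) (div_nonneg hm0 hW0.le)
    rw [e1]
    by_cases h : s i < b ∧ a < e i
    · rw [if_pos h]
      by_cases h1 : s i < a
      · rw [if_pos ⟨h1, h.2⟩]
        have : (0 : ℝ) ≤ if s i < b ∧ b < e i then (2 : ℝ) else 0 := by split_ifs <;> norm_num
        linarith
      · by_cases h2 : b < e i
        · rw [if_pos (show s i < b ∧ b < e i from ⟨h.1, h2⟩)]
          have : (0 : ℝ) ≤ if s i < a ∧ a < e i then (2 : ℝ) else 0 := by split_ifs <;> norm_num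
          linarith
        · have h3 : m = W := by
            rw [hm, hWdef, max_eq_left (by omega), min_eq_left (by omega)]
          rw [h3, div_self hW0.ne', mul_one, if_neg (fun h4 => h1 h4.1),
            if_neg (fun h4 => h2 h4.2)]
          linarith
    · rw [if_neg h]
      have h5 : (0 : ℝ) ≤ if s i < b ∧ b < e i then (2 : ℝ) else 0 := by split_ifs <;> norm_num
      have h6 : (0 : ℝ) ≤ if s i < a ∧ a < e i then (2 : ℝ) else 0 := by split_ifs <;> norm_num
      linarith
  have htot := Finset.sum_le_sum fun (i : ι) (_ : i ∈ univ) => key i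
  rw [Finset.sum_add_distrib, Finset.sum_add_distrib, Finset.sum_sub_distrib, hsum] at htot
  linarith

end Pool.Agent.H49.SRC
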